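import Mathlib
import Pool.Agent.Lib.MP_56a425_co.Defs

/-!
Digit sets in a rational base `p / q`: the numbers `∑ x_i p ^ i q ^ (s - 1 - i)` with digits
`x_i` in `[0, k)`. A finite automaton of carries shows that their sumset has no progression
with `L + 2` terms.
-/

set_option autoImplicit false

namespace Pool.Agent.Lib.MP_56a425_coR

open Finset Pool.Agent.Lib.MP_56a425_co
open scoped Pointwise

/-- The numbers `∑_{i < s} x_i p ^ i q ^ (s - 1 - i)` with all digits `x_i` in `[0, k)`. -/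
def ratSet (p q k : ℕ) : ℕ → Finset ℤ
  | 0 => {0}
  | s + 1 => ((Finset.range k) ×ˢ (ratSet p q k s)).image
      (fun v : ℕ × ℤ => (q : ℤ) ^ s * (v.1 : ℤ) + (p : ℤ) * v.2)

theorem mem_ratSet_succ {p q k s : ℕ} {x : ℤ} :
    x ∈ ratSet p q k (s + 1) ↔
      ∃ a : ℕ, a < k ∧ ∃ y ∈ ratSet p q k s, x = (q : ℤ) ^ s * (a : ℤ) + (p : ℤ) * y := by
  rw [ratSet, Finset.mem_image]
  constructor
  · rintro ⟨⟨a, y⟩, hv, rfl⟩
    rw [Finset.mem_product, Finset.mem_range] at hv
    exact ⟨a, hv.1, y, hv.2, rfl⟩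
  · rintro ⟨a, ha, y, hy, rfl⟩
    exact ⟨(a, y), Finset.mem_product.2 ⟨Finset.mem_range.2 ha, hy⟩, rfl⟩

theorem ratSet_bound {p q k : ℕ} (hqp : q < p) (hk : 1 ≤ k) (s : ℕ) :
    ∀ x ∈ ratSet p q k s, 0 ≤ x ∧ x + ((k : ℤ) - 1) * (q : ℤ) ^ s ≤ ((k : ℤ) - 1) * (p : ℤ) ^ s := by
  induction s with
  | zero =>
    intro x hx
    rw [ratSet, Finset.mem_singleton] at hx
    subst hx
    simp
  | succ s ih =>
    intro x hx
    obtain ⟨a, ha, y, hy, rfl⟩ := mem_ratSet_succ.1 hx
    obtain ⟨h0, h1⟩ := ih y hy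
    have hq0 : (0 : ℤ) ≤ (q : ℤ) ^ s := by positivity
    have hp0 : (0 : ℤ) ≤ (p : ℤ) := by positivity
    have ha' : (a : ℤ) ≤ (k : ℤ) - 1 := by omega
    have hk' : (0 : ℤ) ≤ (k : ℤ) - 1 := by omega
    refine ⟨by positivity, ?_⟩
    have h2 : (p : ℤ) * (y + ((k : ℤ) - 1) * (q : ℤ) ^ s) ≤
        (p : ℤ) * (((k : ℤ) - 1) * (p : ℤ) ^ s) := mul_le_mul_of_nonneg_left h1 hp0
    have h3 : (q : ℤ) ^ s * (a : ℤ) ≤ (q : ℤ) ^ s * ((k : ℤ) - 1) :=
      mul_le_mul_of_nonneg_left ha' hq0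
    have h4 : (0 : ℤ) ≤ ((k : ℤ) - 1) * (q : ℤ) ^ s * ((p : ℤ) - 1 - q) :=
      mul_nonneg (mul_nonneg hk' hq0) (by omega)
    rw [pow_succ, pow_succ]
    nlinarith

theorem ratSet_subset {p q k : ℕ} (hqp : q < p) (hk : 1 ≤ k) (s : ℕ) :
    ratSet p q k s ⊆ Finset.Ico 0 (((k * p ^ s : ℕ) : ℕ) : ℤ) := by
  intro x hx
  obtain ⟨h0, h1⟩ := ratSet_bound hqp hk s x hx
  have hk' : (0 : ℤ) ≤ (k : ℤ) - 1 := by omega
  have h2 : (0 : ℤ) ≤ ((k : ℤ) - 1) * (q : ℤ) ^ s := mul_nonneg hk' (by positivity)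
  have h3 : (0 : ℤ) < (p : ℤ) ^ s := by
    have : (0 : ℤ) < (p : ℤ) := by omega
    positivity
  rw [Finset.mem_Ico]
  push_cast
  refine ⟨h0, ?_⟩
  nlinarith

theorem ratSet_card {p q k : ℕ} (hpq : IsCoprime (p : ℤ) (q : ℤ)) (hp : 0 < p) (hkp : k ≤ p)
    (s : ℕ) : (ratSet p q k s).card = k ^ s := by
  induction s with
  | zero => simp [ratSet]
  | succ s ih =>
    rw [ratSet, Finset.card_image_of_injOn, Finset.card_product, Finset.card_range, ih, pow_succ]
    · ring
    · rintro ⟨a, x⟩ ha ⟨b, y⟩ hb hab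
      rw [Finset.mem_coe, Finset.mem_product, Finset.mem_range] at ha hb
      have hab' : (q : ℤ) ^ s * (a : ℤ) + (p : ℤ) * x = (q : ℤ) ^ s * (b : ℤ) + (p : ℤ) * y := hab
      have h1 : (p : ℤ) ∣ ((a : ℤ) - b) := by
        have h2 : (p : ℤ) ∣ ((a : ℤ) - b) * (q : ℤ) ^ s := ⟨y - x, by linarith⟩
        exact (hpq.pow_right).dvd_of_dvd_mul_right h2
      have h3 : (a : ℤ) = b := by
        have ha1 : a < k := ha.1
        have hb1 : b < k := hb.1
        obtain ⟨z, hz⟩ := h1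
        have h4 : z = 0 := by
          by_contra hne
          rcases lt_or_gt_of_ne hne with h | h
          · have : (p : ℤ) * z ≤ -(p : ℤ) := by nlinarith
            omega
          · have : (p : ℤ) ≤ (p : ℤ) * z := by nlinarith
            omega
        rw [h4, mul_zero] at hz
        linarith
      have h5 : (p : ℤ) * x = (p : ℤ) * y := by
        rw [h3] at hab'
        linarith
      have h6 : x = y := mul_left_cancel₀ (by omega : (p : ℤ) ≠ 0) h5
      rw [Prod.mk.injEq]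
      exact ⟨by exact_mod_cast h3, h6⟩

/-- Values of words of length `s` with digits in `[0, m]`. -/
def Sm (p q m : ℕ) : ℕ → ℤ → Prop
  | 0, t => t = 0
  | s + 1, t => ∃ a : ℕ, a ≤ m ∧ ∃ t' : ℤ, Sm p q m s t' ∧ t = (q : ℤ) ^ s * (a : ℤ) + (p : ℤ) * t'

theorem sm_add {p q k m : ℕ} (hm : 2 * k ≤ m + 2) (s : ℕ) :
    ∀ x ∈ ratSet p q k s, ∀ y ∈ ratSet p q k s, Sm p q m s (x + y) := by
  induction s with
  | zero =>
    intro x hx y hy
    rw [ratSet, Finset.mem_singleton] at hx hy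
    rw [Sm, hx, hy, add_zero]
  | succ s ih =>
    intro x hx y hy
    obtain ⟨a, ha, x', hx', rfl⟩ := mem_ratSet_succ.1 hx
    obtain ⟨b, hb, y', hy', rfl⟩ := mem_ratSet_succ.1 hy
    refine ⟨a + b, by omega, x' + y', ih x' hx' y' hy', ?_⟩
    push_cast
    ring

/-- The second differences of `t`, from the start, are `Q` times the entries of the list. -/
def D2 (Q : ℤ) : List ℤ → (ℕ → ℤ) → Prop
  | [], _ => True
  | c :: cs, t => t 0 - 2 * t 1 + t 2 = Q * c ∧ D2 Q cs (fun j => t (j + 1))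

theorem d2_zero (c : List ℤ) : ∀ t : ℕ → ℤ, (∀ j, t j = 0) → D2 1 c t → ∀ x ∈ c, x = 0 := by
  induction c with
  | nil =>
    intro t _ _ x hx
    exact absurd hx (by simp)
  | cons c cs ih =>
    intro t ht h x hx
    obtain ⟨h1, h2⟩ := h
    rw [ht 0, ht 1, ht 2] at h1
    rcases List.mem_cons.1 hx with h3 | h3
    · rw [h3]
      linarith
    · exact ih (fun j => t (j + 1)) (fun j => ht (j + 1)) h2 x h3

theorem d2_replicate (Q : ℤ) (L : ℕ) : ∀ t : ℕ → ℤ,
    (∀ i < L, t i - 2 * t (i + 1) + t (i + 2) = 0) → D2 Q (List.replicate L 0) t := by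
  induction L with
  | zero =>
    intro t _
    trivial
  | succ L ih =>
    intro t h
    rw [List.replicate_succ]
    refine ⟨?_, ih (fun j => t (j + 1)) fun i hi => h (i + 1) (by omega)⟩
    rw [mul_zero]
    exact h 0 (by omega)

/-- All successors of a state, for given first two digits, with a flag which tells that all the
digits from the second on are equal. -/
def outs (p q : ℤ) (m : ℕ) : List ℤ → ℕ → ℕ → List (List ℤ × Bool)
  | [], _, _ => [([], true)]
  | c :: cs, a, b => (List.range (m + 1)).flatMap fun e : ℕ =>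
      if (q * c - ((a : ℤ) - 2 * (b : ℤ) + (e : ℤ))) % p = 0 then
        (outs p q m cs b e).map fun r =>
          ((q * c - ((a : ℤ) - 2 * (b : ℤ) + (e : ℤ))) / p :: r.1, (decide (e = b) && r.2))
      else []

theorem outs_spec {p q : ℕ} (hp : 0 < p) (hpq : IsCoprime (p : ℤ) (q : ℤ)) (m s : ℕ)
    (c : List ℤ) : ∀ (t t' : ℕ → ℤ) (σ : ℕ → ℕ), (∀ j, σ j ≤ m) →
      (∀ j, t j = (q : ℤ) ^ s * (σ j : ℤ) + (p : ℤ) * t' j) → D2 ((q : ℤ) ^ (s + 1)) c t →
      ∃ (c' : List ℤ) (f : Bool), D2 ((q : ℤ) ^ s) c' t' ∧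
        (c', f) ∈ outs p q m c (σ 0) (σ 1) ∧ c'.length = c.length ∧
        (f = true → ∀ j < c.length, σ (j + 2) = σ (j + 1)) := by
  induction c with
  | nil =>
    intro t t' σ _ _ _
    exact ⟨[], true, trivial, by simp [outs], rfl, fun _ j hj => absurd hj (by simp)⟩
  | cons c cs ih =>
    intro t t' σ hσ ht hD
    obtain ⟨h1, h2⟩ := hD
    obtain ⟨c', f, h3, h4, h5, h6⟩ := ih (fun j => t (j + 1)) (fun j => t' (j + 1))
      (fun j => σ (j + 1)) (fun j => hσ (j + 1)) (fun j => ht (j + 1)) h2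
    have hpz : (p : ℤ) ≠ 0 := by omega
    set w : ℤ := (q : ℤ) * c - ((σ 0 : ℤ) - 2 * (σ 1 : ℤ) + (σ 2 : ℤ)) with hw
    have h7 : (p : ℤ) * (t' 0 - 2 * t' 1 + t' 2) = (q : ℤ) ^ s * w := by
      rw [hw]
      rw [ht 0, ht 1, ht 2, pow_succ] at h1
      linarith
    have h8 : (p : ℤ) ∣ w := by
      have h9 : (p : ℤ) ∣ w * (q : ℤ) ^ s := ⟨_, by rw [mul_comm w, h7]⟩
      exact (hpq.pow_right).dvd_of_dvd_mul_right h9
    obtain ⟨z, hz⟩ := h8
    have hdiv : w / (p : ℤ) = z := by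
      rw [hz, Int.mul_ediv_cancel_left _ hpz]
    have hmod : w % (p : ℤ) = 0 := by
      rw [hz, Int.mul_emod_right]
    refine ⟨z :: c', decide (σ 2 = σ 1) && f, ⟨?_, h3⟩, ?_, ?_, ?_⟩
    · have h10 : (p : ℤ) * (t' 0 - 2 * t' 1 + t' 2) = (p : ℤ) * ((q : ℤ) ^ s * z) := by
        rw [h7, hz]
        ring
      exact mul_left_cancel₀ hpz h10
    · rw [outs, List.mem_flatMap]
      refine ⟨σ 2, List.mem_range.2 (by have := hσ 2; omega), ?_⟩
      rw [← hw, if_pos hmod, List.mem_map]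
      exact ⟨(c', f), h4, by rw [hdiv]⟩
    · rw [List.length_cons, List.length_cons, h5]
    · intro hf j hj
      rw [Bool.and_eq_true, decide_eq_true_eq] at hf
      rcases Nat.eq_zero_or_pos j with h0 | h0
      · subst h0
        exact hf.1
      · obtain ⟨i, rfl⟩ : ∃ i, j = i + 1 := ⟨j - 1, by omega⟩
        have hi : i < cs.length := by
          rw [List.length_cons] at hj
          omega
        exact h6 hf.2 i hi

/-- The finite check: the set `R` of states is closed under all transitions, and the zero state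
is entered only from itself, with constant digits. -/
def chk (p q : ℤ) (m : ℕ) (R : List (List ℤ)) : Bool :=
  R.all fun c => (List.range (m + 1)).all fun a => (List.range (m + 1)).all fun b =>
    (outs p q m c a b).all fun r => decide (r.1 ∈ R) &&
      (!(r.1.all fun x => decide (x = 0)) ||
        ((c.all fun x => decide (x = 0)) && decide (b = a) && r.2))

theorem const_of_chk {p q m : ℕ} {R : List (List ℤ)} (hp : 0 < p)
    (hpq : IsCoprime (p : ℤ) (q : ℤ)) (h : chk p q m R = true) (s : ℕ) :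
    ∀ (c : List ℤ) (t : ℕ → ℤ), c ∈ R → (∀ j, Sm p q m s (t j)) → D2 ((q : ℤ) ^ s) c t →
      (∀ x ∈ c, x = 0) ∧ ∀ j ≤ c.length, t (j + 1) = t j := by
  induction s with
  | zero =>
    intro c t _ ht hD
    have ht0 : ∀ j, t j = 0 := fun j => ht j
    rw [pow_zero] at hD
    exact ⟨d2_zero c t ht0 hD, fun j _ => by rw [ht0, ht0]⟩
  | succ s ih =>
    intro c t hc ht hD
    choose σ hσ t' ht' he using ht
    obtain ⟨c', f, h1, h2, h3, h4⟩ := outs_spec hp hpq m s c t t' σ hσ he hD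
    unfold chk at h
    simp only [Bool.and_eq_true, List.all_eq_true, List.mem_range, decide_eq_true_eq,
      Bool.or_eq_true, Bool.not_eq_true'] at h
    obtain ⟨h5, h6⟩ := h c hc (σ 0) (by have := hσ 0; omega) (σ 1) (by have := hσ 1; omega)
      (c', f) h2
    obtain ⟨h7, h8⟩ := ih c' t' h5 ht' h1
    have h9 : (c'.all fun x => decide (x = 0)) = true := by
      rw [List.all_eq_true]
      intro x hx
      exact decide_eq_true (h7 x hx)
    rcases h6 with h6 | ⟨⟨h10, h11⟩, h12⟩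
    · rw [h9] at h6
      exact absurd h6 (by simp)
    · refine ⟨h10, ?_⟩
      intro j hj
      rw [he, he, h8 j (by omega)]
      have h13 : σ (j + 1) = σ j := by
        rcases Nat.eq_zero_or_pos j with h0 | h0
        · subst h0
          exact h11
        · obtain ⟨i, rfl⟩ : ∃ i, j = i + 1 := ⟨j - 1, by omega⟩
          exact h4 h12 i (by omega)
      rw [h13]

/-- No progression with `L + 2` terms in the sumset. -/
theorem not_hasAP {p q k m L : ℕ} {R : List (List ℤ)} (hp : 0 < p)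
    (hpq : IsCoprime (p : ℤ) (q : ℤ)) (hm : 2 * k ≤ m + 2) (h : chk p q m R = true)
    (h0 : List.replicate L 0 ∈ R) (s : ℕ) :
    ¬ HasAP (ratSet p q k s + ratSet p q k s) (L + 2) := by
  rintro ⟨a, d, hd, hAP⟩
  have hS : ∀ j, j < L + 2 → Sm p q m s (a + j * d) := by
    intro j hj
    obtain ⟨x, hx, y, hy, hxy⟩ := Finset.mem_add.1 (hAP j hj)
    rw [← hxy]
    exact sm_add hm s x hx y hy
  set t : ℕ → ℤ := fun j => if j < L + 2 then a + j * d else a with ht
  have htS : ∀ j, Sm p q m s (t j) := by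
    intro j
    rw [ht]
    show Sm p q m s (if j < L + 2 then a + j * d else a)
    split_ifs with hj
    · exact hS j hj
    · have := hS 0 (by omega)
      simpa using this
  have hD : D2 ((q : ℤ) ^ s) (List.replicate L 0) t := by
    refine d2_replicate _ L t fun i hi => ?_
    rw [ht]
    show (if i < L + 2 then a + (i : ℤ) * d else a) -
      2 * (if i + 1 < L + 2 then a + ((i + 1 : ℕ) : ℤ) * d else a) +
      (if i + 2 < L + 2 then a + ((i + 2 : ℕ) : ℤ) * d else a) = 0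
    rw [if_pos (by omega), if_pos (by omega), if_pos (by omega)]
    push_cast
    ring
  have h1 := (const_of_chk hp hpq h s _ t h0 htS hD).2 0 (by omega)
  rw [ht] at h1
  have h2 : (if 0 + 1 < L + 2 then a + ((0 + 1 : ℕ) : ℤ) * d else a) =
      (if 0 < L + 2 then a + ((0 : ℕ) : ℤ) * d else a) := h1
  rw [if_pos (by omega), if_pos (by omega)] at h2
  push_cast at h2
  linarith

end Pool.Agent.Lib.MP_56a425_coR
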