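import Mathlib
import Pool.Agent.Lib.MP_56a425_coT.Growth
import Pool.Agent.Lib.MP_56a425_coR.Base

/-!
Upper bounds for `ell θ` from digit sets in a rational base, with three explicit checks.
-/

set_option autoImplicit false

namespace Pool.Agent.Lib.MP_56a425_coR

open Finset Pool.Agent.Lib.MP_56a425_co Pool.Agent.Lib.MP_56a425_coT
open scoped Pointwise

/-- Digits `0, …, k - 1` in base `p / q`, with a finite check for progressions with `L + 2`
terms, give `ell θ ≤ L + 1` for all `θ > 1 - log k / log p`. -/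
theorem ell_le_of_chk {p q k L : ℕ} {R : List (List ℤ)} (hqp : q < p)
    (hpq : IsCoprime (p : ℤ) (q : ℤ)) (hk : 2 ≤ k) (hkp : k ≤ p)
    (h : chk p q (2 * k - 2) R = true) (h0 : List.replicate L 0 ∈ R) (θ : ℝ)
    (hθ : 1 - Real.log k / Real.log p < θ) (h1 : θ < 1) : ell θ ≤ ((L + 1 : ℕ) : ℕ∞) := by
  have hp : 0 < p := by omega
  have hpR : (1 : ℝ) < p := by exact_mod_cast (by omega : 1 < p)
  have hkR : (1 : ℝ) < k := by exact_mod_cast (by omega : 1 < k)
  have hlp : 0 < Real.log p := Real.log_pos hpR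
  have hlk : 0 < Real.log k := Real.log_pos hkR
  have hγ : (1 - θ) * Real.log p < Real.log k := by
    have h2 : 1 - θ < Real.log k / Real.log p := by linarith
    rwa [lt_div_iff₀ hlp] at h2
  have hgap : 0 < Real.log k - (1 - θ) * Real.log p := by linarith
  obtain ⟨s, hs⟩ := exists_nat_gt ((1 - θ) * (Real.log 4 + Real.log k) /
    (Real.log k - (1 - θ) * Real.log p))
  rw [div_lt_iff₀ hgap] at hs
  have hAP := not_hasAP (k := k) (m := 2 * k - 2) (L := L) hp hpq (by omega) h h0 s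
  refine ell_le_of_set θ h1 (ratSet p q k s) (k * p ^ s) (L + 2) ?_ (by omega)
    (ratSet_subset hqp (by omega) s) ?_ hAP
  · have : 0 < k * p ^ s := by positivity
    omega
  · rw [ratSet_card hpq hp hkp]
    have hps : (0 : ℝ) < (p : ℝ) ^ s := by positivity
    push_cast
    rw [Real.log_pow, Real.log_mul (by norm_num) (by positivity),
      Real.log_mul (by positivity) hps.ne', Real.log_pow]
    linarith

theorem chk_four_thirds : chk 4 3 2 [[0, 0, 0], [1, -1, 1], [-1, 1, -1]] = true := by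
  decide +kernel

theorem chk_ten_ninths : chk 10 9 6 [[0, 0, 0, 0, 0, 0], [1, -1, 1, -1, 1, -1],
    [-1, 1, -1, 1, -1, 1]] = true := by
  decide +kernel

theorem chk_six_fifths : chk 6 5 4 [[0, 0, 0, 0, 0, 0, 0], [-1, 0, 0, 1, -1, 0, 0],
    [-1, 0, 1, -1, 0, 1, -1], [-1, 1, -1, 1, -1, 1, -1], [-1, 1, 0, -1, 1, 0, -1],
    [-1, 1, 0, 0, -1, 1, 0], [0, -1, 1, 0, -1, 1, 0], [0, -1, 1, 0, 0, -1, 1],
    [0, 0, -1, 1, 0, 0, -1], [0, 0, 1, -1, 0, 0, 1], [0, 1, -1, 0, 0, 1, -1],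
    [0, 1, -1, 0, 1, -1, 0], [1, -1, 0, 0, 1, -1, 0], [1, -1, 0, 1, -1, 0, 1],
    [1, -1, 1, -1, 1, -1, 1], [1, 0, -1, 1, 0, -1, 1], [1, 0, 0, -1, 1, 0, 0]] = true := by
  decide +kernel

end Pool.Agent.Lib.MP_56a425_coR
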