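import Mathlib
import Pool.Agent.Lib.MP_56a425_co.Defs

/-!
The lower bound `4 ≤ ell θ` for `θ < 1 / 2`.
-/

set_option autoImplicit false

namespace Pool.Agent.Lib.MP_56a425_coR

open Finset Pool.Agent.Lib.MP_56a425_co
open scoped Pointwise

/-- If `x + 2 y` is not injective on `A × A`, then `A + A` has a progression with four terms. -/
theorem hasAP_four {A : Finset ℤ} {N : ℕ} (hA : A ⊆ Finset.Icc 1 (N : ℤ))
    (hc : 3 * N < A.card * A.card) : HasAP (A + A) 4 := by
  have hcard : (Finset.Icc (1 : ℤ) ((3 * N : ℕ) : ℤ)).card < (A ×ˢ A).card := by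
    rw [Int.card_Icc, Finset.card_product]
    omega
  obtain ⟨⟨x, y⟩, hxy, ⟨x', y'⟩, hxy', hne, he⟩ :=
    Finset.exists_ne_map_eq_of_card_lt_of_maps_to hcard
      (f := fun v : ℤ × ℤ => v.1 + 2 * v.2) (by
        intro v hv
        have hv' := Finset.mem_product.1 hv
        have h1 := Finset.mem_Icc.1 (hA hv'.1)
        have h2 := Finset.mem_Icc.1 (hA hv'.2)
        show v.1 + 2 * v.2 ∈ Finset.Icc (1 : ℤ) ((3 * N : ℕ) : ℤ)
        rw [Finset.mem_Icc]
        push_cast
        omega)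
  have he' : x + 2 * y = x' + 2 * y' := he
  rw [Finset.mem_product] at hxy hxy'
  obtain ⟨hx, hy⟩ := hxy
  obtain ⟨hx', hy'⟩ := hxy'
  have hd : y' - y ≠ 0 := by
    intro h0
    apply hne
    rw [Prod.mk.injEq]
    omega
  refine hasAP_of_ne (x' + y) (y' - y) hd fun j hj => ?_
  interval_cases j
  · have h : x' + y + ((0 : ℕ) : ℤ) * (y' - y) = x' + y := by push_cast; ring
    rw [h]
    exact Finset.add_mem_add hx' hy
  · have h : x' + y + ((1 : ℕ) : ℤ) * (y' - y) = x' + y' := by push_cast; ring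
    rw [h]
    exact Finset.add_mem_add hx' hy'
  · have h : x' + y + ((2 : ℕ) : ℤ) * (y' - y) = x + y := by push_cast; linarith
    rw [h]
    exact Finset.add_mem_add hx hy
  · have h : x' + y + ((3 : ℕ) : ℤ) * (y' - y) = x + y' := by push_cast; linarith
    rw [h]
    exact Finset.add_mem_add hx hy'

theorem four_le_ell {θ : ℝ} (hθ : θ < 1 / 2) : 4 ≤ ell θ := by
  unfold ell
  refine Filter.le_limsup_of_frequently_le (Filter.Eventually.frequently ?_) (by isBoundedDefault)
  have h1 : Filter.Tendsto (fun N : ℕ => (N : ℝ) ^ (1 / 2 - θ)) Filter.atTop Filter.atTop :=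
    (tendsto_rpow_atTop (by linarith)).comp tendsto_natCast_atTop_atTop
  filter_upwards [h1.eventually_ge_atTop 4, Filter.eventually_ge_atTop 1] with N hN hN1
  refine le_iInf₂ fun A hA => ?_
  have hNR : (1 : ℝ) ≤ N := by exact_mod_cast hN1
  have hsq : (N : ℝ) ^ (1 - θ) = (N : ℝ) ^ (1 / 2 - θ) * Real.sqrt N := by
    rw [Real.sqrt_eq_rpow, ← Real.rpow_add (by linarith)]
    congr 1
    ring
  have hs1 : 1 ≤ Real.sqrt N := Real.one_le_sqrt.2 hNR
  have hss : Real.sqrt N * Real.sqrt N = N := Real.mul_self_sqrt (by linarith)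
  have h2 : 4 * Real.sqrt N ≤ (N : ℝ) ^ (1 - θ) := by
    rw [hsq]
    exact mul_le_mul_of_nonneg_right hN (by linarith)
  have h3 : (N : ℝ) ^ (1 - θ) < (A.card : ℝ) + 1 := by
    rw [hA.2]
    exact Nat.lt_floor_add_one _
  have h4 : 2 * Real.sqrt N < (A.card : ℝ) := by linarith
  have h5 : 3 * N < A.card * A.card := by
    have h6 : (3 * N : ℝ) < (A.card : ℝ) * A.card := by nlinarith
    exact_mod_cast h6
  have h7 := (le_lp_iff _ _).2 (hasAP_four hA.1 h5)
  exact_mod_cast h7

end Pool.Agent.Lib.MP_56a425_coR
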